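import Mathlib

namespace Pool.Agent.Results.MP_658dbf_an.UpToThree
open Polynomial Real MeasureTheory Filter Topology

/-- the point `e^{iθ}` of the unit circle -/
noncomputable def z (θ : ℝ) : ℂ := Complex.exp (θ * Complex.I)

/-- `∫_{-π}^{π} |1-e^{iθ}|^{2l} |P(e^{iθ})|^2 dθ` -/
noncomputable def E (l : ℝ) (P : ℤ[X]) : ℝ :=
  ∫ θ in (-π)..π, ‖1 - z θ‖ ^ (2 * l) * ‖aeval (z θ) P‖ ^ 2

/-- `∫_{-π}^{π} |1-e^{iθ}|^{2m} dθ` -/
noncomputable def J (m : ℝ) : ℝ := ∫ θ in (-π)..π, ‖1 - z θ‖ ^ (2 * m)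

/-- `∫_{-π}^{π} |1-e^{iθ}|^{2m} (4 + 2 cos θ) dθ` -/
noncomputable def L (m : ℝ) : ℝ := ∫ θ in (-π)..π, ‖1 - z θ‖ ^ (2 * m) * (4 + 2 * cos θ)

lemma cz : Continuous z := by unfold z; fun_prop

lemma cP (P : ℤ[X]) : Continuous fun θ => ‖aeval (z θ) P‖ ^ 2 :=
  (((P.continuous_aeval (A := ℂ)).comp cz).norm).pow 2

lemma cw {m : ℝ} (hm : 0 ≤ m) : Continuous fun θ => ‖1 - z θ‖ ^ (2 * m) :=
  (Real.continuous_rpow_const (by linarith)).comp (continuous_const.sub cz).norm

lemma nz (x : ℝ) : ‖1 - z x‖ ^ 2 = 2 - 2 * cos x := by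
  unfold z
  rw [Complex.sq_norm, Complex.normSq_apply]
  simp only [Complex.sub_re, Complex.sub_im, Complex.one_re, Complex.one_im,
    Complex.exp_ofReal_mul_I_re, Complex.exp_ofReal_mul_I_im]
  nlinarith [sin_sq_add_cos_sq x]

lemma zpow (x : ℝ) (m : ℕ) : z x ^ m = z (m * x) := by
  unfold z; rw [← Complex.exp_nat_mul]; push_cast; ring_nf

noncomputable def y (θ : ℝ) : ℝ := (1 + cos θ) / 2

lemma y0 (θ : ℝ) : 0 ≤ y θ := by unfold y; linarith [neg_one_le_cos θ]
lemma y1 (θ : ℝ) : y θ ≤ 1 := by unfold y; linarith [cos_le_one θ]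
lemma cy : Continuous y := by unfold y; fun_prop

lemma stepA {W : ℝ → ℝ} (hW : Continuous W)
    (H : ∀ k : ℤ, 0 ≤ ∫ θ in (-π)..π, (1 - cos (k * θ)) * W θ) (n : ℕ) :
    ∀ k : ℤ, 0 ≤ ∫ θ in (-π)..π, (1 - y θ ^ n * cos (k * θ)) * W θ := by
  induction n with
  | zero => simpa using H
  | succ n ih =>
    intro k
    have c : ∀ j : ℤ, IntervalIntegrable (fun θ => (1 - y θ ^ n * cos (j * θ)) * W θ) volume (-π) π :=
      fun j => Continuous.intervalIntegrable (by have := cy; fun_prop) _ _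
    have e : (fun θ => (1 - y θ ^ (n + 1) * cos (k * θ)) * W θ) = fun θ =>
        (1 / 2) * ((1 - y θ ^ n * cos (k * θ)) * W θ) +
        ((1 / 4) * ((1 - y θ ^ n * cos ((k + 1 : ℤ) * θ)) * W θ) +
        (1 / 4) * ((1 - y θ ^ n * cos ((k - 1 : ℤ) * θ)) * W θ)) := by
      funext θ
      push_cast
      rw [add_mul (k : ℝ), sub_mul (k : ℝ), one_mul, cos_add, cos_sub, pow_succ]
      have : y θ = (1 + cos θ) / 2 := rfl
      generalize y θ ^ n = t
      rw [this]; ring
    rw [e, intervalIntegral.integral_add ((c k).const_mul _)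
      (((c _).const_mul _).add ((c _).const_mul _)),
      intervalIntegral.integral_add ((c _).const_mul _) ((c _).const_mul _)]
    simp only [intervalIntegral.integral_const_mul]
    have := ih k; have := ih (k + 1); have := ih (k - 1)
    positivity

lemma sgn {m : ℝ} (h0 : 0 ≤ m) (h1 : m ≤ 1) (n : ℕ) :
    0 ≤ (-1) ^ n * (descPochhammer ℤ (n + 1)).smeval m := by
  induction n with
  | zero => simpa [descPochhammer_one, Polynomial.smeval_X] using h0
  | succ n ih =>
    rw [descPochhammer_succ_right, Polynomial.smeval_mul, Polynomial.smeval_sub,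
      Polynomial.smeval_X, Polynomial.smeval_natCast]
    simp only [pow_one, pow_zero, nsmul_eq_mul, mul_one]
    have : (0 : ℝ) ≤ ((n + 1 : ℕ) : ℝ) - m := by push_cast; have : (0:ℝ) ≤ n := n.cast_nonneg; linarith
    have := mul_nonneg ih this
    rw [pow_succ]; linarith

lemma sgn' {m : ℝ} (h0 : 0 ≤ m) (h1 : m ≤ 1) (n : ℕ) :
    Ring.choose m (n + 1) * (-1) ^ (n + 1) ≤ 0 := by
  rw [Ring.choose_eq_smul, smul_eq_mul]
  have h := sgn h0 h1 n
  have h2 : (0 : ℝ) ≤ ((n + 1).factorial : ℝ)⁻¹ := by positivity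
  have := mul_nonneg h2 h
  rw [pow_succ]; linarith

lemma hs (m : ℝ) {x : ℝ} (h0 : 0 ≤ x) (h1 : x < 1) :
    HasSum (fun n => Ring.choose m n * (-1) ^ n * x ^ n) ((1 - x) ^ m) := by
  have h := (Real.one_add_rpow_hasFPowerSeriesOnBall_zero (a := m)).hasSum (y := -x)
    (by
      rw [Metric.mem_eball, edist_dist, ← ENNReal.ofReal_one]
      refine (ENNReal.ofReal_lt_ofReal_iff one_pos).2 ?_
      simpa [abs_of_nonneg h0] using h1)
  simp only [binomialSeries_apply, List.ofFn_const, List.prod_replicate, smul_eq_mul,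
    zero_add] at h
  have e : (fun n => Ring.choose m n * (-1) ^ n * x ^ n) = fun n => Ring.choose m n * (-x) ^ n := by
    funext n; rw [neg_pow x]; ring
  rw [e, sub_eq_add_neg]; exact h

lemma stepB {W : ℝ → ℝ} (hW : Continuous W)
    (H : ∀ n : ℕ, 0 ≤ ∫ θ in (-π)..π, (1 - y θ ^ n) * W θ) {m : ℝ} (h0 : 0 ≤ m) (h1 : m ≤ 1)
    {r : ℝ} (r0 : 0 ≤ r) (r1 : r < 1) :
    0 ≤ ∫ θ in (-π)..π, ((1 - r * y θ) ^ m - (1 - r) ^ m) * W θ := by
  set a : ℕ → ℝ := fun n => Ring.choose m n * (-1) ^ n * r ^ n with ha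
  have sa : Summable fun n => |a n| := (hs m r0 r1).summable.abs
  have key := intervalIntegral.hasSum_integral_of_dominated_convergence (μ := volume)
    (a := -π) (b := π) (F := fun n θ => (-a n) * ((1 - y θ ^ n) * W θ))
    (f := fun θ => ((1 - r * y θ) ^ m - (1 - r) ^ m) * W θ) (fun n θ => |a n| * |W θ|)
    (fun n => Continuous.aestronglyMeasurable (by have := cy; fun_prop))
    (fun n => Eventually.of_forall fun θ _ => by
      rw [Real.norm_eq_abs, abs_mul, abs_mul, abs_neg]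
      have p0 := pow_nonneg (y0 θ) n
      have p1 := pow_le_one₀ (n := n) (y0 θ) (y1 θ)
      have : |1 - y θ ^ n| ≤ 1 := abs_le.2 ⟨by linarith, by linarith⟩
      exact mul_le_mul_of_nonneg_left (mul_le_of_le_one_left (abs_nonneg _) this) (abs_nonneg _))
    (Eventually.of_forall fun θ _ => sa.mul_right _)
    (by
      simp only [tsum_mul_right]
      exact Continuous.intervalIntegrable (by fun_prop) _ _)
    (Eventually.of_forall fun θ _ => by
      have e1 := hs m (mul_nonneg r0 (y0 θ)) (lt_of_le_of_lt (mul_le_of_le_one_right r0 (y1 θ)) r1)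
      have e2 := hs m r0 r1
      have e : (fun n => (-a n) * ((1 - y θ ^ n) * W θ)) = fun n =>
          (Ring.choose m n * (-1) ^ n * (r * y θ) ^ n - Ring.choose m n * (-1) ^ n * r ^ n) * W θ := by
        funext n; simp only [ha, mul_pow]; ring
      rw [e]; exact (e1.sub e2).mul_right (W θ))
  refine key.nonneg fun n => ?_
  rw [intervalIntegral.integral_const_mul]
  cases n with
  | zero => simp
  | succ n =>
    refine mul_nonneg ?_ (H (n + 1))
    have := mul_nonneg (neg_nonneg.2 (sgn' h0 h1 n)) (pow_nonneg r0 (n + 1))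
    simp only [ha]; linarith

lemma stepC {W : ℝ → ℝ} (hW : Continuous W)
    (H : ∀ n : ℕ, 0 ≤ ∫ θ in (-π)..π, (1 - y θ ^ n) * W θ) {m : ℝ} (h0 : 0 < m) (h1 : m ≤ 1) :
    0 ≤ ∫ θ in (-π)..π, ‖1 - z θ‖ ^ (2 * m) * W θ := by
  have cr : Continuous fun x : ℝ => x ^ m := Real.continuous_rpow_const h0.le
  have c : Continuous fun r : ℝ => ∫ θ in (-π)..π, ((1 - r * y θ) ^ m - (1 - r) ^ m) * W θ := by
    refine intervalIntegral.continuous_parametric_intervalIntegral_of_continuous' ?_ _ _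
    have := cy
    exact ((cr.comp (by fun_prop)).sub (cr.comp (by fun_prop))).mul (hW.comp continuous_snd)
  have t := (c.tendsto 1).mono_left (nhdsWithin_le_nhds (s := Set.Iio 1))
  have h := ge_of_tendsto t (by
    filter_upwards [Ioo_mem_nhdsLT (zero_lt_one' ℝ)] with r hr
    exact stepB hW H h0.le h1 hr.1.le hr.2)
  have e : (fun θ => ‖1 - z θ‖ ^ (2 * m) * W θ) =
      fun θ => 4 ^ m * (((1 - 1 * y θ) ^ m - (1 - 1) ^ m) * W θ) := by
    funext θ
    rw [Real.rpow_mul (norm_nonneg _), Real.rpow_two, nz, sub_self, Real.zero_rpow h0.ne',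
      sub_zero, ← mul_assoc, ← Real.mul_rpow (by norm_num) (by linarith [y1 θ])]
    congr 2; unfold y; ring
  rw [e, intervalIntegral.integral_const_mul]
  positivity

lemma pars (R : ℤ[X]) :
    ∫ θ in (-π)..π, ‖aeval (z θ) R‖ ^ 2 = 2 * π * ((∑ i ∈ R.support, R.coeff i ^ 2 : ℤ) : ℝ) := by
  have h := (R.map (Int.castRingHom ℂ)).sum_sq_norm_coeff_eq_circleAverage
  rw [Real.circleAverage_eq_integral_add (-π), Polynomial.support_map_of_injective _
    (Int.castRingHom ℂ).injective_int,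
    intervalIntegral.integral_comp_add_right
      (fun θ => ‖eval (circleMap 0 1 θ) (R.map (Int.castRingHom ℂ))‖ ^ 2)] at h
  simp only [coeff_map, eq_intCast, Complex.norm_intCast, sq_abs, smul_eq_mul] at h
  have e : ∀ θ, eval (circleMap 0 1 θ) (R.map (Int.castRingHom ℂ)) = aeval (z θ) R := by
    intro θ; rw [aeval_def, eval₂_eq_eval_map]; simp [circleMap, z]
  simp only [e, zero_add] at h
  rw [show 2 * π + -π = π by ring] at h
  push_cast
  rw [h]; have := pi_pos; field_simp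

lemma card_le (R : ℤ[X]) : (R.support.card : ℤ) ≤ ∑ i ∈ R.support, R.coeff i ^ 2 := by
  rw [Finset.card_eq_sum_ones]; push_cast
  refine Finset.sum_le_sum fun i hi => ?_
  have := mem_support_iff.1 hi
  have : 0 < R.coeff i ^ 2 := by positivity
  omega

lemma ev (R : ℤ[X]) (h : R.eval 1 = 0) : Even (∑ i ∈ R.support, R.coeff i ^ 2) := by
  have e : ∑ i ∈ R.support, R.coeff i = 0 := by
    rw [eval_eq_sum, Polynomial.sum] at h; simpa using h
  have : ∑ i ∈ R.support, R.coeff i ^ 2 = ∑ i ∈ R.support, R.coeff i * (R.coeff i - 1) := by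
    simp only [mul_sub, mul_one, Finset.sum_sub_distrib, e, sub_zero, sq]
  rw [this]
  exact Finset.even_sum _ fun i _ => Int.even_mul_pred_self _

lemma two_le (R : ℤ[X]) (h0 : R ≠ 0) (h : R.eval 1 = 0) : 2 ≤ ∑ i ∈ R.support, R.coeff i ^ 2 := by
  have c := card_le R
  have : R.support.card ≠ 0 := fun e => h0 (card_support_eq_zero.1 e)
  obtain ⟨k, hk⟩ := ev R h
  omega

lemma four_le (R : ℤ[X]) (h0 : R ≠ 0) (h : R.eval 1 = 0) (h' : R.derivative.eval 1 = 0) :
    4 ≤ ∑ i ∈ R.support, R.coeff i ^ 2 := by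
  have c := card_le R
  have n0 : R.support.card ≠ 0 := fun e => h0 (card_support_eq_zero.1 e)
  have n1 : R.support.card ≠ 1 := fun e => by
    obtain ⟨k, x, hx, rfl⟩ := card_support_eq_one.1 e
    simp at h; exact hx h
  have n2 : R.support.card ≠ 2 := fun e => by
    obtain ⟨k, m, hkm, x, w, hx, hw, rfl⟩ := card_support_eq_two.1 e
    simp [derivative_X_pow] at h h'
    have hw' : w = -x := by linarith
    subst hw'
    have : x * ((k : ℤ) - m) = 0 := by linarith
    rcases mul_eq_zero.1 this with h | h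
    · exact hx h
    · omega
  obtain ⟨k, hk⟩ := ev R h
  omega

lemma icos {m : ℕ} (hm : m ≠ 0) : ∫ θ in (-π)..π, (1 - cos (m * θ)) = 2 * π := by
  have : (m : ℝ) ≠ 0 := by exact_mod_cast hm
  rw [intervalIntegral.integral_sub (by simp) (Continuous.intervalIntegrable (by fun_prop) _ _),
    intervalIntegral.integral_comp_mul_left (fun x => cos x) this]
  simp [sin_nat_mul_pi]; ring

lemma lower (Q : ℤ[X]) (c : ℤ)
    (hQ : ∀ m : ℕ, m ≠ 0 → 2 * c ≤ ∑ i ∈ ((1 - X ^ m) * Q).support, ((1 - X ^ m) * Q).coeff i ^ 2)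
    {m : ℝ} (h0 : 0 < m) (h1 : m ≤ 1) : c * J m ≤ E m Q := by
  have hW : Continuous fun θ => ‖aeval (z θ) Q‖ ^ 2 - (c : ℝ) := (cP Q).sub continuous_const
  have N : ∀ k : ℕ, 0 ≤ ∫ θ in (-π)..π, (1 - cos (k * θ)) * (‖aeval (z θ) Q‖ ^ 2 - (c : ℝ)) := by
    intro k
    rcases eq_or_ne k 0 with rfl | hk
    · simp
    have e : (fun θ => (1 - cos (k * θ)) * (‖aeval (z θ) Q‖ ^ 2 - (c : ℝ))) = fun θ =>
        (1 / 2) * ‖aeval (z θ) ((1 - X ^ k) * Q)‖ ^ 2 - c * (1 - cos (k * θ)) := by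
      funext θ
      simp only [map_mul, map_sub, map_one, map_pow, aeval_X, norm_mul, mul_pow, zpow, nz]
      ring
    rw [e, intervalIntegral.integral_sub (((cP _).intervalIntegrable _ _).const_mul _)
      (Continuous.intervalIntegrable (by fun_prop) _ _), intervalIntegral.integral_const_mul,
      intervalIntegral.integral_const_mul, pars, icos hk]
    have : ((2 * c : ℤ) : ℝ) ≤ _ := Int.cast_le.2 (hQ k hk)
    have p := pi_pos
    rw [Int.cast_mul, Int.cast_ofNat] at this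
    nlinarith
  have h := stepC hW (fun n => by
    simpa using stepA hW (fun k => by
      rcases Int.eq_nat_or_neg k with ⟨n, rfl | rfl⟩
      · simpa using N n
      · simpa using N n) n 0) h0 h1
  simp only [mul_sub] at h
  have c1 : Continuous fun θ => ‖1 - z θ‖ ^ (2 * m) * ‖aeval (z θ) Q‖ ^ 2 := (cw h0.le).mul (cP Q)
  have c2 : Continuous fun θ => ‖1 - z θ‖ ^ (2 * m) * (c : ℝ) := (cw h0.le).mul continuous_const
  rw [intervalIntegral.integral_sub (c1.intervalIntegrable _ _) (c2.intervalIntegrable _ _),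
    intervalIntegral.integral_mul_const] at h
  unfold J E; linarith

lemma shift {m : ℝ} (h0 : 0 ≤ m) (P : ℤ[X]) : E (m + 1) P = E m ((1 - X) * P) := by
  unfold E; congr 1; funext θ
  rw [mul_add, Real.rpow_add_of_nonneg (norm_nonneg _) (by linarith) (by norm_num), mul_one,
    Real.rpow_two]
  simp only [map_mul, map_sub, map_one, aeval_X, norm_mul, mul_pow]; ring

lemma ne1 {m : ℕ} (hm : m ≠ 0) : (1 - X ^ m : ℤ[X]) ≠ 0 := fun h => by
  have := congrArg (eval 0) h
  simp [hm] at this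

lemma RL {w : ℝ → ℝ} (hw : Continuous w) :
    Tendsto (fun n : ℕ => ∫ θ in (-π)..π, w θ * cos (n * θ)) atTop (𝓝 0) := by
  have h := Real.tendsto_integral_exp_smul_cocompact
    ((Set.Ioc (-π) π).indicator fun θ => (w θ : ℂ))
  have p := pi_pos
  have t : Tendsto (fun n : ℕ => (n : ℝ) / (2 * π)) atTop (cocompact ℝ) :=
    (tendsto_natCast_atTop_atTop.atTop_div_const (by positivity)).mono_right atTop_le_cocompact
  have h2 := (Complex.continuous_re.tendsto 0).comp (h.comp t)
  rw [Complex.zero_re] at h2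
  refine h2.congr fun n => ?_
  simp only [Function.comp]
  have e : (fun v : ℝ => Real.fourierChar (-(v * (n / (2 * π)))) •
      (Set.Ioc (-π) π).indicator (fun θ => (w θ : ℂ)) v) =
      (Set.Ioc (-π) π).indicator fun v => z (-(n * v)) * (w v : ℂ) := by
    funext v
    by_cases hv : v ∈ Set.Ioc (-π) π
    · simp only [Set.indicator_of_mem hv, Circle.smul_def, Real.fourierChar_apply, smul_eq_mul, z]
      congr 4; field_simp
    · simp [Set.indicator_of_notMem hv]
  rw [e, integral_indicator measurableSet_Ioc, ← intervalIntegral.integral_of_le (by linarith)]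
  have ci : IntervalIntegrable (fun v : ℝ => z (-(n * v)) * (w v : ℂ)) volume (-π) π :=
    Continuous.intervalIntegrable (by have := cz; fun_prop) _ _
  have := Complex.reCLM.intervalIntegral_comp_comm ci
  simp only [Complex.reCLM_apply] at this
  rw [← this]
  congr 1; funext v
  rw [Complex.re_mul_ofReal, z, Complex.exp_ofReal_mul_I_re, cos_neg, mul_comm]

theorem upTo2 (l : ℝ) (h0 : 0 < l) (h2 : l ≤ 2) :
    IsGLB {x : ℝ | ∃ P : ℤ[X], P.Monic ∧ x = E l P} (if l ≤ 1 then J l else 2 * J (l - 1)) := by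
  split_ifs with h1
  · refine IsLeast.isGLB ⟨⟨1, monic_one, by simp [E, J]⟩, ?_⟩
    rintro x ⟨P, hP, rfl⟩
    have := lower P 1 (fun m hm => by
      simpa using two_le _ (mul_ne_zero (ne1 hm) hP.ne_zero) (by simp)) h0 h1
    simpa using this
  · obtain ⟨m, rfl⟩ : ∃ m, l = m + 1 := ⟨l - 1, by ring⟩
    have m0 : 0 < m := by linarith [not_le.1 h1]
    rw [add_sub_cancel_right]
    constructor
    · rintro x ⟨P, hP, rfl⟩
      rw [shift m0.le]
      have := lower ((1 - X) * P) 2 (fun k hk => by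
        have n1 : (1 - X : ℤ[X]) ≠ 0 := by simpa using ne1 one_ne_zero
        simpa using four_le _ (mul_ne_zero (ne1 hk) (mul_ne_zero n1 hP.ne_zero)) (by simp)
          (by simp [derivative_mul])) m0 (by linarith)
      simpa using this
    · intro b hb
      have t := ((RL (cw m0.le)).const_mul 2).const_sub (2 * J m)
      rw [mul_zero, sub_zero] at t
      refine ge_of_tendsto t ?_
      filter_upwards [eventually_ne_atTop 0] with n hn
      have := hb ⟨_, monic_geom_sum_X hn, rfl⟩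
      rw [shift m0.le, mul_neg_geom_sum] at this
      refine this.trans_eq ?_
      unfold E J
      rw [← intervalIntegral.integral_const_mul, ← intervalIntegral.integral_const_mul,
        ← intervalIntegral.integral_sub (((cw m0.le).intervalIntegrable _ _).const_mul _)
          (Continuous.intervalIntegrable (by have := cw m0.le; fun_prop) _ _)]
      congr 1; funext θ
      simp only [map_sub, map_one, map_pow, aeval_X, zpow, nz]; ring


def nrm (R : ℤ[X]) : ℤ := ∑ i ∈ R.support, R.coeff i ^ 2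

lemma nrm_eq (R : ℤ[X]) {S : Finset ℕ} (h : R.support ⊆ S) : nrm R = ∑ i ∈ S, R.coeff i ^ 2 :=
  Finset.sum_subset h fun i _ hi => by simp [notMem_support_iff.1 hi]

lemma nrm_sub (U V : ℤ[X]) : nrm (U - V) =
    nrm U + nrm V + 2 * ∑ j ∈ U.support ∪ V.support, -(U.coeff j * V.coeff j) := by
  have h : (U - V).support ⊆ U.support ∪ V.support := fun i hi => by
    by_contra hc
    simp only [Finset.mem_union, mem_support_iff, not_or, not_not] at hc
    exact mem_support_iff.1 hi (by simp [hc.1, hc.2])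
  rw [nrm_eq _ h, nrm_eq U Finset.subset_union_left, nrm_eq V Finset.subset_union_right,
    Finset.mul_sum, ← Finset.sum_add_distrib, ← Finset.sum_add_distrib]
  refine Finset.sum_congr rfl fun i _ => ?_
  rw [coeff_sub]; ring

noncomputable def run (k d s : ℕ) : ℤ[X] := ∑ i ∈ Finset.range s, X ^ (k + d * i)

lemma run_mul (k d s : ℕ) : (1 - X ^ d) * run k d s = X ^ k - X ^ (k + d * s) := by
  induction s with
  | zero => simp [run]
  | succ s ih => rw [run, Finset.sum_range_succ, ← run, mul_add, ih]; ring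

lemma run_pos (k d : ℕ) {s i : ℕ} (hi : i < s) : 1 ≤ (run k d s).coeff (k + d * i) := by
  rw [run, finset_sum_coeff]
  have := Finset.single_le_sum (s := Finset.range s)
    (f := fun a => (X ^ (k + d * a) : ℤ[X]).coeff (k + d * i))
    (fun a _ => by rw [coeff_X_pow]; split_ifs <;> simp) (Finset.mem_range.2 hi)
  simpa using this

lemma run_ex {k d s j : ℕ} (h : (run k d s).coeff j ≠ 0) : ∃ i < s, j = k + d * i := by
  by_contra hc
  push Not at hc
  apply h
  rw [run, finset_sum_coeff]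
  exact Finset.sum_eq_zero fun i hi => by rw [coeff_X_pow, if_neg (hc i (Finset.mem_range.1 hi))]

lemma run_der (k d t : ℕ) :
    2 * (run k d (t + 1)).derivative.eval 1 = ((t : ℤ) + 1) * (2 * k + d * t) := by
  induction t with
  | zero => simp [run, derivative_X_pow]
  | succ t ih =>
    rw [run, Finset.sum_range_succ, ← run, derivative_add, eval_add, mul_add, ih]
    simp [derivative_X_pow]; ring

lemma ge2 {A : ℤ[X]} (hA : A ≠ 0) {d : ℕ} (hd : d ≠ 0) : 2 ≤ nrm ((1 - X ^ d) * A) :=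
  two_le _ (mul_ne_zero (ne1 hd) hA) (by simp)

lemma is_run {A : ℤ[X]} (hA : A ≠ 0) {d s : ℕ} (hd : d ≠ 0) (hs : A.eval 1 = s)
    (h : nrm ((1 - X ^ d) * A) < 4) : ∃ k, A = run k d s := by
  have R0 : (1 - X ^ d) * A ≠ 0 := mul_ne_zero (ne1 hd) hA
  have e1 : ((1 - X ^ d) * A).eval 1 = 0 := by simp
  have e2 : ((1 - X ^ d) * A).derivative.eval 1 = -((d : ℤ) * s) := by
    simp [derivative_mul, derivative_X_pow, hs]
  suffices ∃ k, (1 - X ^ d) * A = X ^ k - X ^ (k + d * s) by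
    obtain ⟨k, hk⟩ := this
    exact ⟨k, mul_left_cancel₀ (ne1 hd) (hk.trans (run_mul k d s).symm)⟩
  generalize (1 - X ^ d) * A = R at *
  have c := card_le R
  obtain ⟨t, ht⟩ := ev R e1
  unfold nrm at h
  have n0 : R.support.card ≠ 0 := fun e => R0 (card_support_eq_zero.1 e)
  have n1 : R.support.card ≠ 1 := fun e => by
    obtain ⟨k, x, hx, rfl⟩ := card_support_eq_one.1 e
    simp at e1; exact hx e1
  have n2 : R.support.card = 2 := by omega
  obtain ⟨k, m, hkm, x, w, hx, hw, e⟩ := card_support_eq_two.1 n2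
  have ck : R.coeff k = x := by
    rw [e]; simp [coeff_X_pow, hkm.ne]
  have := Finset.single_le_sum (s := R.support) (f := fun i => R.coeff i ^ 2)
    (fun i _ => sq_nonneg _) (a := k) (mem_support_iff.2 (ck ▸ hx))
  simp only [ck] at this
  rw [e] at e1 e2
  simp [derivative_X_pow] at e1 e2
  have hw' : w = -x := by linarith
  subst hw'
  have p : (0 : ℤ) ≤ d * s := by positivity
  have q : (k : ℤ) < m := by exact_mod_cast hkm
  have x0 : 0 < x := by nlinarith [lt_or_gt_of_ne hx, sq_pos_of_ne_zero hx]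
  have x1 : x = 1 := by nlinarith
  subst x1
  have : m = k + d * s := by
    have : (m : ℤ) = k + d * s := by linarith
    exact_mod_cast this
  exact ⟨k, by rw [e, this]; simp [sub_eq_add_neg]⟩

lemma run_uniq {k k' d e s : ℕ} (hs : 2 ≤ s) (hd : d ≠ 0) (he : e ≠ 0)
    (h : run k d s = run k' e s) : d = e := by
  have a0 := run_pos k d (s := s) (i := 0) (by omega)
  have a1 := run_pos k d (s := s) (i := 1) (by omega)
  have b0 := run_pos k' e (s := s) (i := 0) (by omega)
  have b1 := run_pos k' e (s := s) (i := 1) (by omega)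
  rw [h] at a0 a1; rw [← h] at b0 b1
  obtain ⟨i1, -, h1⟩ := run_ex (one_pos.trans_le a0).ne'
  obtain ⟨i2, -, h2⟩ := run_ex (one_pos.trans_le a1).ne'
  obtain ⟨i3, -, h3⟩ := run_ex (one_pos.trans_le b0).ne'
  obtain ⟨i4, -, h4⟩ := run_ex (one_pos.trans_le b1).ne'
  have kk : k = k' := by omega
  subst kk
  have d1 : e ∣ d := ⟨i2, by omega⟩
  have d2 : d ∣ e := ⟨i4, by omega⟩
  exact Nat.dvd_antisymm d2 d1

lemma sumg {g : ℕ → ℤ} {S : Finset ℕ} (h1 : ∀ d ∈ S, -2 ≤ g d)
    (h2 : ∀ d ∈ S, ∀ e ∈ S, g d < 0 → g e < 0 → d = e) : -2 ≤ ∑ d ∈ S, g d := by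
  by_cases h : ∃ d ∈ S, g d < 0
  · obtain ⟨d, hd, hg⟩ := h
    rw [← Finset.add_sum_erase S g hd]
    have := Finset.sum_nonneg (s := S.erase d) (f := g) fun e he => not_lt.1 fun hc =>
      (Finset.ne_of_mem_erase he) (h2 e (Finset.mem_of_mem_erase he) d hd hc hg)
    linarith [h1 d hd]
  · push Not at h
    linarith [Finset.sum_nonneg h]

lemma cf (A : ℤ[X]) (d j : ℕ) :
    ((1 - X ^ d) * A).coeff j = A.coeff j - if d ≤ j then A.coeff (j - d) else 0 := by
  rw [sub_mul, one_mul, coeff_sub, coeff_X_pow_mul']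

noncomputable def cross (A B : ℤ[X]) (d : ℕ) : ℤ :=
  ∑ j ∈ ((1 - X ^ d) * A).support ∪ ((1 - X ^ d) * B).support,
    -(((1 - X ^ d) * A).coeff j * ((1 - X ^ d) * B).coeff j)

lemma cross_comm (A B : ℤ[X]) (d : ℕ) : cross A B d = cross B A d := by
  unfold cross; rw [Finset.union_comm]; simp only [mul_comm]

lemma term_nonneg {A B : ℤ[X]} (a0 : ∀ j, 0 ≤ A.coeff j) (b0 : ∀ j, 0 ≤ B.coeff j)
    (ab : ∀ j, A.coeff j * B.coeff j = 0) (d j : ℕ) :
    0 ≤ -(((1 - X ^ d) * A).coeff j * ((1 - X ^ d) * B).coeff j) := by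
  rw [cf, cf]
  split_ifs
  · nlinarith [ab j, ab (j - d), mul_nonneg (a0 j) (b0 (j - d)), mul_nonneg (a0 (j - d)) (b0 j)]
  · simp [ab j]

lemma cross_nonneg {A B : ℤ[X]} (a0 : ∀ j, 0 ≤ A.coeff j) (b0 : ∀ j, 0 ≤ B.coeff j)
    (ab : ∀ j, A.coeff j * B.coeff j = 0) (d : ℕ) : 0 ≤ cross A B d :=
  Finset.sum_nonneg fun j _ => term_nonneg a0 b0 ab d j

lemma cross_pos {A B : ℤ[X]} (a0 : ∀ j, 0 ≤ A.coeff j) (b0 : ∀ j, 0 ≤ B.coeff j)
    (ab : ∀ j, A.coeff j * B.coeff j = 0) {f j : ℕ} (ha : 1 ≤ A.coeff j)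
    (hb : 1 ≤ B.coeff (j + f)) : 1 ≤ cross A B f := by
  have t : 1 ≤ -(((1 - X ^ f) * A).coeff (j + f) * ((1 - X ^ f) * B).coeff (j + f)) := by
    rw [cf, cf, if_pos (Nat.le_add_left _ _), if_pos (Nat.le_add_left _ _), Nat.add_sub_cancel]
    nlinarith [ab j, ab (j + f), mul_nonneg (a0 (j + f)) (b0 j), mul_nonneg (sub_nonneg.2 ha) (sub_nonneg.2 hb)]
  refine t.trans (Finset.single_le_sum (f := fun j =>
    -(((1 - X ^ f) * A).coeff j * ((1 - X ^ f) * B).coeff j))
    (fun j _ => term_nonneg a0 b0 ab f j) (Finset.mem_union_left _ (mem_support_iff.2 fun h => ?_)))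
  rw [h] at t; simp at t

lemma runs_cross {k k' d e t : ℕ} (ht : 1 ≤ t) (he : e ≠ 0) (hde : e ≤ d)
    (ab : ∀ j, (run k d (t + 1)).coeff j * (run k' e (t + 1)).coeff j = 0)
    (hm : (2 * k + d * t : ℤ) = 2 * k' + e * t) :
    ∃ f j, 1 ≤ f ∧ f ≤ d ∧ 1 ≤ (run k d (t + 1)).coeff j ∧ 1 ≤ (run k' e (t + 1)).coeff (j + f) := by
  have hm' : 2 * k + d * t = 2 * k' + e * t := by exact_mod_cast hm
  have l1 : e * t ≤ d * t := Nat.mul_le_mul_right _ hde
  have l2 : 0 < e * t := Nat.mul_pos (Nat.pos_of_ne_zero he) ht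
  have d0 : 0 < d := by omega
  obtain ⟨u, rfl⟩ : ∃ u, k' = k + u := ⟨k' - k, by omega⟩
  have ul : u < d * t := by omega
  have il : u / d < t := (Nat.div_lt_iff_lt_mul d0).2 (by rwa [mul_comm])
  have dm := Nat.div_add_mod u d
  have ml := Nat.mod_lt u d0
  have pa := run_pos k d (s := t + 1) (i := u / d) (by omega)
  have pb := run_pos (k + u) e (s := t + 1) (i := 0) (by omega)
  rw [mul_zero, add_zero] at pb
  refine ⟨u % d, k + d * (u / d), ?_, ml.le, pa, by rwa [add_assoc, dm]⟩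
  by_contra hc
  have : k + d * (u / d) = k + u := by omega
  rw [this] at pa
  nlinarith [ab (k + u)]

lemma comb (Q : ℤ[X]) (h0 : Q ≠ 0) (h1 : Q.eval 1 = 0) (h2 : Q.derivative.eval 1 = 0) (D : ℕ) :
    -2 ≤ ∑ d ∈ Finset.range D, (nrm ((1 - X ^ (d + 1)) * Q) - 8) := by
  obtain ⟨A, hA⟩ : ∃ A : ℤ[X], ∀ j, A.coeff j = max (Q.coeff j) 0 :=
    ⟨∑ i ∈ Q.support, monomial i (max (Q.coeff i) 0), fun j => by
      simp only [finset_sum_coeff, coeff_monomial, Finset.sum_ite_eq', mem_support_iff]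
      split_ifs with h
      · rfl
      · simp [not_not.1 h]⟩
  obtain ⟨B, rfl⟩ : ∃ B, Q = A - B := ⟨A - Q, by ring⟩
  simp only [coeff_sub] at hA
  have a0 : ∀ j, 0 ≤ A.coeff j := fun j => by have := hA j; omega
  have b0 : ∀ j, 0 ≤ B.coeff j := fun j => by have := hA j; omega
  have ab : ∀ j, A.coeff j * B.coeff j = 0 := fun j => mul_eq_zero.2 (by have := hA j; omega)
  have ba : ∀ j, B.coeff j * A.coeff j = 0 := fun j => by rw [mul_comm]; exact ab j
  have evs : ∀ P : ℤ[X], P.eval 1 = ∑ i ∈ P.support, P.coeff i := fun P => by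
    rw [eval_eq_sum, Polynomial.sum]; simp
  have sq : ∀ P : ℤ[X], (∀ j, 0 ≤ P.coeff j) → nrm P ≤ P.eval 1 ^ 2 := fun P h => by
    rw [evs]; exact Finset.sum_sq_le_sq_sum_of_nonneg fun i _ => h i
  have s0 : 0 ≤ A.eval 1 := by rw [evs]; exact Finset.sum_nonneg fun i _ => a0 i
  obtain ⟨s, hs⟩ := Int.eq_ofNat_of_zero_le s0
  have hs' : B.eval 1 = s := by rw [eval_sub] at h1; linarith
  have f4 : 4 ≤ nrm (A - B) := four_le _ h0 h1 h2
  rw [nrm_sub] at f4
  simp only [ab, neg_zero, Finset.sum_const_zero] at f4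
  have s2 : 2 ≤ s := by
    have := sq A a0; have := sq B b0
    rw [hs] at *; rw [hs'] at *
    by_contra hc
    have : s = 0 ∨ s = 1 := by omega
    rcases this with rfl | rfl <;> simp at * <;> omega
  have A0 : A ≠ 0 := by rintro rfl; simp at hs; omega
  have B0 : B ≠ 0 := by rintro rfl; simp at hs'; omega
  have e : ∀ d, nrm ((1 - X ^ (d + 1)) * (A - B)) - 8 = (nrm ((1 - X ^ (d + 1)) * A) - 4) +
      (nrm ((1 - X ^ (d + 1)) * B) - 4) + 2 * cross A B (d + 1) := fun d => by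
    rw [mul_sub, nrm_sub, cross]; ring
  simp only [e, Finset.sum_add_distrib, ← Finset.mul_sum]
  have G : ∀ P : ℤ[X], P ≠ 0 → P.eval 1 = s →
      -2 ≤ ∑ d ∈ Finset.range D, (nrm ((1 - X ^ (d + 1)) * P) - 4) := fun P P0 hP => by
    refine sumg (fun d _ => by linarith [ge2 P0 d.succ_ne_zero]) fun d _ e _ hd he => ?_
    obtain ⟨k, hk⟩ := is_run P0 d.succ_ne_zero hP (by linarith)
    obtain ⟨k', hk'⟩ := is_run P0 e.succ_ne_zero hP (by linarith)
    simpa using run_uniq s2 d.succ_ne_zero e.succ_ne_zero (hk.symm.trans hk')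
  have gA := G A A0 hs
  have gB := G B B0 hs'
  have gC : 0 ≤ ∑ d ∈ Finset.range D, cross A B (d + 1) :=
    Finset.sum_nonneg fun d _ => cross_nonneg a0 b0 ab _
  by_cases cA : ∀ d ∈ Finset.range D, 0 ≤ nrm ((1 - X ^ (d + 1)) * A) - 4
  · linarith [Finset.sum_nonneg cA]
  by_cases cB : ∀ d ∈ Finset.range D, 0 ≤ nrm ((1 - X ^ (d + 1)) * B) - 4
  · linarith [Finset.sum_nonneg cB]
  push Not at cA cB
  obtain ⟨d, hd, hdA⟩ := cA
  obtain ⟨e, he, heB⟩ := cB
  obtain ⟨k, hk⟩ := is_run A0 d.succ_ne_zero hs (by linarith)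
  obtain ⟨k', hk'⟩ := is_run B0 e.succ_ne_zero hs' (by linarith)
  obtain ⟨t, rfl⟩ : ∃ t, s = t + 1 := ⟨s - 1, by omega⟩
  have hm : (2 * k + (d.succ : ℕ) * t : ℤ) = 2 * k' + (e.succ : ℕ) * t := by
    have r1 := run_der k d.succ t
    have r2 := run_der k' e.succ t
    rw [← hk] at r1; rw [← hk'] at r2
    rw [derivative_sub, eval_sub] at h2
    exact mul_left_cancel₀ (by positivity : ((t : ℤ) + 1) ≠ 0) (by linarith)
  have fin : ∀ f, 1 ≤ f → f ≤ D → 1 ≤ cross A B f →
      1 ≤ ∑ d ∈ Finset.range D, cross A B (d + 1) := fun f f1 f2 hf => by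
    obtain ⟨g, rfl⟩ : ∃ g, f = g + 1 := ⟨f - 1, by omega⟩
    exact hf.trans (Finset.single_le_sum (f := fun d => cross A B (d + 1))
      (fun d _ => cross_nonneg a0 b0 ab _) (Finset.mem_range.2 (by omega)))
  have hd' := Finset.mem_range.1 hd
  have he' := Finset.mem_range.1 he
  rcases le_total e.succ d.succ with h | h
  · obtain ⟨f, j, f1, f2, p1, p2⟩ := runs_cross (by omega) e.succ_ne_zero h
      (by rw [← hk, ← hk']; exact ab) hm
    rw [← hk] at p1; rw [← hk'] at p2
    linarith [fin f f1 (by omega) (cross_pos a0 b0 ab p1 p2)]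
  · obtain ⟨f, j, f1, f2, p1, p2⟩ := runs_cross (by omega) d.succ_ne_zero h
      (by rw [← hk, ← hk']; exact ba) hm.symm
    rw [← hk'] at p1; rw [← hk] at p2
    linarith [fin f f1 (by omega) (cross_comm A B f ▸ cross_pos b0 a0 ba p1 p2)]

noncomputable def K : ℕ → ℝ → ℝ
  | 0, _ => 1
  | D + 1, θ => K D θ + 2 * cos (((D + 1 : ℕ) : ℝ) * θ)

lemma cK (D : ℕ) : Continuous (K D) := by
  induction D with
  | zero => exact continuous_const
  | succ D ih => exact ih.add (by fun_prop)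

lemma Kid (D : ℕ) (θ : ℝ) : 2 * cos θ * K (D + 1) θ = K (D + 2) θ + K D θ := by
  induction D with
  | zero =>
    simp only [K]; push_cast
    rw [one_mul, cos_two_mul]; ring
  | succ D ih =>
    have e1 : K (D + 1 + 1) θ = K (D + 1) θ + 2 * cos (((D + 1 + 1 : ℕ) : ℝ) * θ) := rfl
    have e2 : K (D + 1 + 2) θ = K (D + 2) θ + 2 * cos (((D + 2 + 1 : ℕ) : ℝ) * θ) := rfl
    have e3 : K (D + 1) θ = K D θ + 2 * cos (((D + 1 : ℕ) : ℝ) * θ) := rfl
    have a1 : ((D + 2 + 1 : ℕ) : ℝ) * θ = ((D + 1 + 1 : ℕ) : ℝ) * θ + θ := by push_cast; ring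
    have a2 : ((D + 1 : ℕ) : ℝ) * θ = ((D + 1 + 1 : ℕ) : ℝ) * θ - θ := by push_cast; ring
    rw [a1, cos_add] at e2
    rw [a2, cos_sub] at e3
    rw [e1, e2]; linarith

lemma stepA2 {W : ℝ → ℝ} (hW : Continuous W)
    (H : ∀ D : ℕ, 0 ≤ ∫ θ in (-π)..π, ((2 * D + 1) - K D θ) * W θ) (n : ℕ) :
    ∀ D : ℕ, 0 ≤ ∫ θ in (-π)..π, ((2 * D + 1) - y θ ^ n * K D θ) * W θ := by
  induction n with
  | zero => simpa using H
  | succ n ih =>
    intro D
    have c : ∀ j : ℕ, IntervalIntegrable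
        (fun θ => ((2 * j + 1) - y θ ^ n * K j θ) * W θ) volume (-π) π :=
      fun j => Continuous.intervalIntegrable (by have := cy; have := cK j; fun_prop) _ _
    cases D with
    | zero =>
      have e : (fun θ => ((2 * (0 : ℕ) + 1) - y θ ^ (n + 1) * K 0 θ) * W θ) = fun θ =>
          (1 / 4) * (((2 * (0 : ℕ) + 1) - y θ ^ n * K 0 θ) * W θ) +
          (1 / 4) * (((2 * (1 : ℕ) + 1) - y θ ^ n * K 1 θ) * W θ) := by
        funext θ
        simp only [K, pow_succ]; push_cast
        have : y θ = (1 + cos θ) / 2 := rfl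
        generalize y θ ^ n = t
        rw [this, one_mul θ]; ring
      rw [e, intervalIntegral.integral_add ((c _).const_mul _) ((c _).const_mul _)]
      simp only [intervalIntegral.integral_const_mul]
      have := ih 0; have := ih 1
      positivity
    | succ D =>
      have e : (fun θ => ((2 * (D + 1 : ℕ) + 1) - y θ ^ (n + 1) * K (D + 1) θ) * W θ) = fun θ =>
          (1 / 2) * (((2 * (D + 1 : ℕ) + 1) - y θ ^ n * K (D + 1) θ) * W θ) +
          ((1 / 4) * (((2 * (D + 2 : ℕ) + 1) - y θ ^ n * K (D + 2) θ) * W θ) +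
          (1 / 4) * (((2 * (D : ℕ) + 1) - y θ ^ n * K D θ) * W θ)) := by
        funext θ
        have h := Kid D θ
        rw [pow_succ]; push_cast
        have : y θ = (1 + cos θ) / 2 := rfl
        generalize y θ ^ n = t
        rw [this]
        linear_combination (-(t * W θ) / 4) * h
      rw [e, intervalIntegral.integral_add ((c _).const_mul _)
        (((c _).const_mul _).add ((c _).const_mul _)),
        intervalIntegral.integral_add ((c _).const_mul _) ((c _).const_mul _)]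
      simp only [intervalIntegral.integral_const_mul]
      have := ih D; have := ih (D + 1); have := ih (D + 2)
      positivity

lemma lower3 (Q : ℤ[X]) (q0 : Q ≠ 0) (q1 : Q.eval 1 = 0) (q2 : Q.derivative.eval 1 = 0)
    {m : ℝ} (h0 : 0 < m) (h1 : m ≤ 1) : L m ≤ E m Q := by
  have hW : Continuous fun θ => ‖aeval (z θ) Q‖ ^ 2 - (4 + 2 * cos θ) := (cP Q).sub (by fun_prop)
  have ic : ∀ j : ℕ, IntervalIntegrable (fun θ : ℝ => 1 - cos (j * θ)) volume (-π) π :=
    fun j => Continuous.intervalIntegrable (by fun_prop) _ _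
  have N : ∀ D : ℕ, ∫ θ in (-π)..π, ((2 * D + 1) - K D θ) * (‖aeval (z θ) Q‖ ^ 2 - (4 + 2 * cos θ)) =
      2 * π * (((∑ d ∈ Finset.range D, (nrm ((1 - X ^ (d + 1)) * Q) - 8) : ℤ) : ℝ) +
        if D = 0 then 0 else 2) := by
    intro D
    induction D with
    | zero => simp [K]
    | succ D ih =>
      have e : (fun θ => ((2 * (D + 1 : ℕ) + 1) - K (D + 1) θ) *
          (‖aeval (z θ) Q‖ ^ 2 - (4 + 2 * cos θ))) = fun θ =>
          ((2 * D + 1) - K D θ) * (‖aeval (z θ) Q‖ ^ 2 - (4 + 2 * cos θ)) +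
          (‖aeval (z θ) ((1 - X ^ (D + 1)) * Q)‖ ^ 2 - (8 * (1 - cos ((D + 1 : ℕ) * θ)) -
          (4 * (1 - cos ((1 : ℕ) * θ)) - (2 * (1 - cos ((D + 2 : ℕ) * θ)) +
          2 * (1 - cos ((D : ℕ) * θ)))))) := by
        funext θ
        simp only [map_mul, map_sub, map_one, map_pow, aeval_X, norm_mul, mul_pow, zpow, nz, K]
        have a1 : ((D + 2 : ℕ) : ℝ) * θ = ((D + 1 : ℕ) : ℝ) * θ + θ := by push_cast; ring
        have a2 : ((D : ℕ) : ℝ) * θ = ((D + 1 : ℕ) : ℝ) * θ - θ := by push_cast; ring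
        rw [a1, a2, cos_add, cos_sub, Nat.cast_one, one_mul]
        generalize ((D + 1 : ℕ) : ℝ) * θ = x
        push_cast; ring
      have i1 := (ic (D + 1)).const_mul 8
      have i2 := (ic 1).const_mul 4
      have i3 := (ic (D + 2)).const_mul 2
      have i4 := (ic D).const_mul 2
      have i5 := (cP ((1 - X ^ (D + 1)) * Q)).intervalIntegrable (μ := volume) (-π) π
      have i0 : IntervalIntegrable (fun θ => ((2 * D + 1) - K D θ) *
          (‖aeval (z θ) Q‖ ^ 2 - (4 + 2 * cos θ))) volume (-π) π :=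
        Continuous.intervalIntegrable ((continuous_const.sub (cK D)).mul hW) _ _
      rw [e, intervalIntegral.integral_add i0 (i5.sub (i1.sub (i2.sub (i3.add i4)))),
        intervalIntegral.integral_sub i5 (i1.sub (i2.sub (i3.add i4))),
        intervalIntegral.integral_sub i1 (i2.sub (i3.add i4)),
        intervalIntegral.integral_sub i2 (i3.add i4), intervalIntegral.integral_add i3 i4, ih, pars]
      simp only [intervalIntegral.integral_const_mul]
      rw [icos D.succ_ne_zero, icos one_ne_zero, icos (D + 1).succ_ne_zero, Finset.sum_range_succ]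
      rcases eq_or_ne D 0 with rfl | hD
      · simp [nrm]; ring
      · rw [icos hD]; simp [nrm, hD]; ring
  have h := stepC hW (fun n => by
    simpa [K] using stepA2 hW (fun D => by
      rw [N]
      have c : ((-2 : ℤ) : ℝ) ≤ _ := Int.cast_le.2 (comb Q q0 q1 q2 D)
      refine mul_nonneg (by positivity) ?_
      split_ifs with hD
      · simp [hD]
      · rw [Int.cast_neg, Int.cast_ofNat] at c; linarith) n 0) h0 h1
  simp only [mul_sub] at h
  have c1 : Continuous fun θ => ‖1 - z θ‖ ^ (2 * m) * ‖aeval (z θ) Q‖ ^ 2 := (cw h0.le).mul (cP Q)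
  have c2 : Continuous fun θ => ‖1 - z θ‖ ^ (2 * m) * (4 + 2 * cos θ) := (cw h0.le).mul (by fun_prop)
  rw [intervalIntegral.integral_sub (c1.intervalIntegrable _ _) (c2.intervalIntegrable _ _)] at h
  unfold L E; linarith

theorem result (l : ℝ) (h0 : 0 < l) (h3 : l ≤ 3) :
    IsGLB {x : ℝ | ∃ P : ℤ[X], P.Monic ∧ x = E l P}
      (if l ≤ 1 then J l else if l ≤ 2 then 2 * J (l - 1) else L (l - 2)) := by
  by_cases h2 : l ≤ 2
  · simpa only [h2, if_true] using upTo2 l h0 h2
  rw [if_neg (fun h => h2 (by linarith)), if_neg h2]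
  obtain ⟨m, rfl⟩ : ∃ m, l = m + 1 + 1 := ⟨l - 2, by ring⟩
  have m0 : 0 < m := by linarith [not_le.1 h2]
  rw [show m + 1 + 1 - 2 = m by ring]
  have n1 : (1 - X : ℤ[X]) ≠ 0 := by simpa using ne1 one_ne_zero
  constructor
  · rintro x ⟨P, hP, rfl⟩
    rw [shift (by linarith), shift m0.le]
    exact lower3 _ (mul_ne_zero n1 (mul_ne_zero n1 hP.ne_zero)) (by simp)
      (by simp [derivative_mul]) m0 (by linarith)
  · intro b hb
    have w := cw m0.le
    have r := RL w
    have r1 := r.comp (tendsto_add_atTop_nat 1)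
    have r2 := r.comp (f := fun n => n + (n + 1))
      (tendsto_atTop_mono (fun n => Nat.le_add_right n (n + 1)) tendsto_id)
    have t := (((r.const_mul 4).add (r1.const_mul 4)).sub (r2.const_mul 2)).const_sub (L m)
    simp only [mul_zero, add_zero, sub_zero] at t
    refine ge_of_tendsto t ?_
    filter_upwards [eventually_ne_atTop 0] with n hn
    have := hb ⟨_, (monic_geom_sum_X hn).mul (monic_geom_sum_X n.succ_ne_zero), rfl⟩
    rw [shift (by linarith), shift m0.le, ← mul_assoc, mul_mul_mul_comm, mul_neg_geom_sum,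
      mul_neg_geom_sum] at this
    refine this.trans_eq ?_
    have ic : ∀ j : ℕ, IntervalIntegrable (fun θ : ℝ => ‖1 - z θ‖ ^ (2 * m) * cos (j * θ)) volume (-π) π :=
      fun j => Continuous.intervalIntegrable (w.mul (by fun_prop)) _ _
    have i0 : IntervalIntegrable (fun θ : ℝ => ‖1 - z θ‖ ^ (2 * m) * (4 + 2 * cos θ)) volume (-π) π :=
      Continuous.intervalIntegrable (w.mul (by fun_prop)) _ _
    unfold E L
    simp only [Function.comp, ← intervalIntegral.integral_const_mul]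
    rw [← intervalIntegral.integral_add ((ic _).const_mul _) ((ic _).const_mul _),
      ← intervalIntegral.integral_sub (((ic _).const_mul _).add ((ic _).const_mul _))
        ((ic _).const_mul _),
      ← intervalIntegral.integral_sub i0 ((((ic _).const_mul _).add ((ic _).const_mul _)).sub
        ((ic _).const_mul _))]
    congr 1; funext θ
    simp only [map_mul, map_sub, map_one, map_pow, aeval_X, norm_mul, mul_pow, zpow, nz]
    have a1 : ((n + (n + 1) : ℕ) : ℝ) * θ = ((n + 1 : ℕ) : ℝ) * θ + n * θ := by push_cast; ring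
    have a2 : cos θ = cos (((n + 1 : ℕ) : ℝ) * θ - n * θ) := by congr 1; push_cast; ring
    rw [a1, a2, cos_add, cos_sub, Nat.succ_eq_add_one]; ring

end Pool.Agent.Results.MP_658dbf_an.UpToThree
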